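import Mathlib

set_option autoImplicit false

/-!
# The variable Szeged and Wiener indices can agree at two exponents
-/

open SimpleGraph

namespace Pool.Agent.Results.MP_dd6dde_co.TwoZeros

/-- The number of vertices closer to `u` than to `v`. -/
noncomputable def closer {V : Type} (G : SimpleGraph V) (u v : V) : ℕ :=
  {w | G.dist w u < G.dist w v}.ncard

open Classical in
/-- The variable Wiener index: half of the sum over ordered pairs of distinct vertices. -/
noncomputable def wiener {V : Type} [Fintype V] (G : SimpleGraph V) (α : ℝ) : ℝ :=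
  (1 / 2) * ∑ x, ∑ y, if x = y then 0 else (G.dist x y : ℝ) ^ α

open Classical in
/-- The variable Szeged index: half of the sum over ordered adjacent pairs. -/
noncomputable def szeged {V : Type} [Fintype V] (G : SimpleGraph V) (α : ℝ) : ℝ :=
  (1 / 2) * ∑ x, ∑ y, if G.Adj x y then ((closer G x y : ℝ) * closer G y x) ^ α else 0

section graph

variable (p l q : ℕ)

/-- Vertices: a cocktail party graph, a path and a complete graph. -/
abbrev Vt : Type := (Fin p × Bool) ⊕ (Fin l ⊕ Fin q)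

variable {p l q}

/-- The level of a vertex. -/
def lev : Vt p l q → ℕ
  | Sum.inl _ => 0
  | Sum.inr (Sum.inl i) => i + 1
  | Sum.inr (Sum.inr _) => l + 1

/-- Antipodal pairs of the cocktail party graph. -/
def anti : Vt p l q → Vt p l q → Prop
  | Sum.inl x, Sum.inl y => x.1 = y.1 ∧ x.2 ≠ y.2
  | _, _ => False

lemma anti_symm {x y : Vt p l q} (h : anti x y) : anti y x := by
  rcases x with x | x <;> rcases y with y | y
  · exact ⟨h.1.symm, h.2.symm⟩
  · exact h
  · exact h
  · exact h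

lemma anti_lev {x y : Vt p l q} (h : anti x y) : lev x = 0 ∧ lev y = 0 := by
  rcases x with x | x <;> rcases y with y | y
  · exact ⟨rfl, rfl⟩
  · exact h.elim
  · exact h.elim
  · exact h.elim

lemma anti_ne {x y : Vt p l q} (h : anti x y) : x ≠ y := by
  rintro rfl
  rcases x with x | x
  · exact h.2 rfl
  · exact h.elim

lemma anti_unique {x y z : Vt p l q} (h : anti x y) (h' : anti x z) : y = z := by
  rcases x with x | x <;> rcases y with y | y <;> rcases z with z | z
  · have h1 : y.1 = z.1 := h.1.symm.trans h'.1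
    have h2 : y.2 = z.2 := by
      have a := h.2
      have b := h'.2
      revert a b
      cases x.2 <;> cases y.2 <;> cases z.2 <;> simp
    exact congrArg _ (Prod.ext h1 h2)
  all_goals first | exact h.elim | exact h'.elim

/-- The graph. -/
def Gr (p l q : ℕ) : SimpleGraph (Vt p l q) where
  Adj x y := x ≠ y ∧ lev x ≤ lev y + 1 ∧ lev y ≤ lev x + 1 ∧ ¬ anti x y
  symm := ⟨fun _ _ h => ⟨h.1.symm, h.2.2.1, h.2.1, fun h' => h.2.2.2 (anti_symm h')⟩⟩
  loopless := ⟨fun _ h => h.1 rfl⟩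

open Classical in
/-- The distance function. -/
noncomputable def D (x y : Vt p l q) : ℕ :=
  if x = y then 0 else if anti x y then 2 else if lev x = lev y then 1 else
    (lev x - lev y) + (lev y - lev x)

lemma D_self (x : Vt p l q) : D x x = 0 := if_pos rfl

lemma D_anti {x y : Vt p l q} (h : anti x y) : D x y = 2 := by
  rw [D, if_neg (anti_ne h), if_pos h]

lemma D_lev {x y : Vt p l q} (hne : x ≠ y) (h : ¬ anti x y) (hl : lev x = lev y) : D x y = 1 := by
  rw [D, if_neg hne, if_neg h, if_pos hl]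

lemma D_diff {x y : Vt p l q} (hl : lev x ≠ lev y) :
    D x y = (lev x - lev y) + (lev y - lev x) := by
  have h1 : x ≠ y := by rintro rfl; exact hl rfl
  have h2 : ¬ anti x y := by
    intro h
    exact hl ((anti_lev h).1.trans (anti_lev h).2.symm)
  rw [D, if_neg h1, if_neg h2, if_neg hl]

lemma D_eq_zero {x y : Vt p l q} (h : D x y = 0) : x = y := by
  by_contra hne
  by_cases ha : anti x y
  · rw [D_anti ha] at h; omega
  · by_cases hl : lev x = lev y
    · rw [D_lev hne ha hl] at h; omega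
    · rw [D_diff hl] at h; omega

lemma D_adj {x y : Vt p l q} (h : (Gr p l q).Adj x y) : D x y = 1 := by
  by_cases hl : lev x = lev y
  · exact D_lev h.1 h.2.2.2 hl
  · rw [D_diff hl]
    have := h.2.1
    have := h.2.2.1
    omega

lemma lev_le_D (x y : Vt p l q) : lev x ≤ lev y + D x y ∧ lev y ≤ lev x + D x y := by
  by_cases hl : lev x = lev y
  · omega
  · rw [D_diff hl]; omega

/-- A path vertex on every level between `1` and `l`. -/
lemma exists_path (k : ℕ) (h1 : 1 ≤ k) (h2 : k ≤ l) : ∃ z : Vt p l q, lev z = k ∧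
    ∃ i : Fin l, z = Sum.inr (Sum.inl i) :=
  ⟨Sum.inr (Sum.inl ⟨k - 1, by omega⟩), by simp only [lev]; omega, _, rfl⟩

lemma path_unique {z w : Vt p l q} (h : lev z = lev w) (h1 : 1 ≤ lev z) (h2 : lev z ≤ l) :
    z = w := by
  rcases z with z | z | z <;> rcases w with w | w | w <;> simp only [lev] at h h1 h2 ⊢
  all_goals try omega
  rw [Fin.ext (by omega : (z : ℕ) = w)]

lemma lev_le (z : Vt p l q) : lev z ≤ l + 1 := by
  rcases z with z | z | z <;> simp only [lev] <;> omega

lemma not_anti_of_lev {x y : Vt p l q} (h : 1 ≤ lev x) : ¬ anti x y := by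
  intro ha
  have := (anti_lev ha).1
  omega

lemma not_anti_of_lev' {x y : Vt p l q} (h : 1 ≤ lev y) : ¬ anti x y := by
  intro ha
  have := (anti_lev ha).2
  omega

lemma D_le_succ {x z y : Vt p l q} (h : (Gr p l q).Adj x z) : D x y ≤ D z y + 1 := by
  obtain ⟨hne, h1, h2, h3⟩ := h
  by_cases hxy : x = y
  · rw [hxy, D_self]; omega
  by_cases hzy : z = y
  · subst hzy
    rw [D_self, D_adj ⟨hne, h1, h2, h3⟩]
  by_cases ha : anti x y
  · rw [D_anti ha]
    have : D z y ≠ 0 := fun h0 => hzy (D_eq_zero h0)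
    omega
  by_cases hl : lev x = lev y
  · rw [D_lev hxy ha hl]; omega
  · rw [D_diff hl]
    have := lev_le_D z y
    omega

lemma exists_closer (hl1 : 1 ≤ l) {x y : Vt p l q} (hxy : x ≠ y) :
    ∃ z, (Gr p l q).Adj x z ∧ D z y + 1 = D x y := by
  by_cases hadj : (Gr p l q).Adj x y
  · exact ⟨y, hadj, by rw [D_self, D_adj hadj]⟩
  by_cases ha : anti x y
  · obtain ⟨z, hz, -⟩ := exists_path (p := p) (q := q) 1 le_rfl hl1
    have hx0 := (anti_lev ha).1
    have hy0 := (anti_lev ha).2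
    refine ⟨z, ⟨?_, by omega, by omega, not_anti_of_lev' (by omega)⟩, ?_⟩
    · rintro rfl; omega
    · rw [D_anti ha, D_diff (by omega)]; omega
  have hl : lev x ≠ lev y := by
    intro hl
    exact hadj ⟨hxy, by omega, by omega, ha⟩
  have hfar : lev x > lev y + 1 ∨ lev y > lev x + 1 := by
    by_contra hcon
    push Not at hcon
    exact hadj ⟨hxy, by omega, by omega, ha⟩
  have hxl := lev_le x
  have hyl := lev_le y
  rcases hfar with hfar | hfar
  · obtain ⟨z, hz, -⟩ := exists_path (p := p) (l := l) (q := q) (lev x - 1) (by omega) (by omega)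
    refine ⟨z, ⟨?_, by omega, by omega, not_anti_of_lev (by omega)⟩, ?_⟩
    · rintro rfl; omega
    · rw [D_diff (x := z) (y := y) (by omega), D_diff hl]; omega
  · obtain ⟨z, hz, -⟩ := exists_path (p := p) (l := l) (q := q) (lev x + 1) (by omega) (by omega)
    refine ⟨z, ⟨?_, by omega, by omega, not_anti_of_lev' (by omega)⟩, ?_⟩
    · rintro rfl; omega
    · rw [D_diff (x := z) (y := y) (by omega), D_diff hl]; omega

lemma exists_walk (hl1 : 1 ≤ l) (y : Vt p l q) : ∀ (d : ℕ) (x : Vt p l q), D x y = d →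
    ∃ w : (Gr p l q).Walk x y, w.length = d := by
  intro d
  induction d with
  | zero => intro x hx; obtain rfl := D_eq_zero hx; exact ⟨Walk.nil, rfl⟩
  | succ d ih =>
    intro x hx
    have hne : x ≠ y := by rintro rfl; rw [D_self] at hx; omega
    obtain ⟨z, hz, hz2⟩ := exists_closer hl1 hne
    obtain ⟨w, hw⟩ := ih z (by omega)
    exact ⟨Walk.cons hz w, by rw [Walk.length_cons, hw]⟩

lemma D_le_length {x y : Vt p l q} (w : (Gr p l q).Walk x y) : D x y ≤ w.length := by
  induction w with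
  | nil => rw [D_self]; exact Nat.zero_le _
  | cons h w ih =>
    rw [Walk.length_cons]
    exact (D_le_succ h).trans (by omega)

lemma Gr_connected (hl1 : 1 ≤ l) : (Gr p l q).Connected := by
  rw [connected_iff_exists_forall_reachable]
  obtain ⟨z, -, -⟩ := exists_path (p := p) (q := q) 1 le_rfl hl1
  exact ⟨z, fun y => (exists_walk hl1 y _ z rfl).choose.reachable⟩

lemma dist_eq (hl1 : 1 ≤ l) (x y : Vt p l q) : (Gr p l q).dist x y = D x y := by
  apply le_antisymm
  · obtain ⟨w, hw⟩ := exists_walk hl1 y _ x rfl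
    rw [← hw]
    exact dist_le w
  · obtain ⟨w, hw⟩ := ((Gr_connected hl1).preconnected x y).exists_walk_length_eq_dist
    rw [← hw]
    exact D_le_length w

/-! Closer counts. -/

lemma closer_eq (hl1 : 1 ≤ l) (x y : Vt p l q) :
    closer (Gr p l q) x y = {w : Vt p l q | D w x < D w y}.ncard := by
  unfold closer
  simp only [dist_eq hl1]

lemma closer_le_of_subset (hl1 : 1 ≤ l) {x y : Vt p l q} (S : Set (Vt p l q)) {n : ℕ}
    (hS : S.ncard ≤ n) (h : ∀ w, D w x < D w y → w ∈ S) : closer (Gr p l q) x y ≤ n := by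
  rw [closer_eq hl1]
  exact (Set.ncard_le_ncard (fun w hw => h w hw) (Set.toFinite _)).trans hS

/-- A vertex dominated in the closed sense has only itself closer. -/
lemma closer_le_one (hl1 : 1 ≤ l) {x y : Vt p l q} (hne : x ≠ y)
    (h : (lev x = 0 ∧ lev y = 1) ∨ (lev x = l + 1 ∧ lev y = l) ∨ (lev x = l + 1 ∧ lev y = l + 1)) :
    closer (Gr p l q) x y ≤ 1 := by
  apply closer_le_of_subset hl1 {x} (by rw [Set.ncard_singleton])
  intro w hw
  rw [Set.mem_singleton_iff]
  by_contra hwx'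
  by_cases hwy : w = y
  · subst hwy
    rw [D_self] at hw
    omega
  have hwx : D w x ≠ 0 := fun h => hwx' (D_eq_zero h)
  have hwl := lev_le w
  by_cases hly : lev w = lev y
  · rcases h with h | h | h
    · exact hwy (path_unique hly (by omega) (by omega))
    · exact hwy (path_unique hly (by omega) (by omega))
    · rw [D_lev hwy (not_anti_of_lev' (by omega)) hly] at hw
      omega
  · rw [D_diff hly] at hw
    by_cases hlx : lev w = lev x
    · omega
    · rw [D_diff hlx] at hw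
      omega

lemma ncard_pos_lev : {w : Vt p l q | 1 ≤ lev w}.ncard ≤ l + q := by
  have h : {w : Vt p l q | 1 ≤ lev w} ⊆ (Sum.inr : Fin l ⊕ Fin q → Vt p l q) '' Set.univ := by
    intro w hw
    rcases w with w | w
    · exact absurd hw (by simp [lev])
    · exact ⟨w, Set.mem_univ _, rfl⟩
  refine (Set.ncard_le_ncard h (Set.toFinite _)).trans ((Set.ncard_image_le (Set.toFinite _)).trans ?_)
  rw [Set.ncard_univ, Nat.card_eq_fintype_card, Fintype.card_sum, Fintype.card_fin,
    Fintype.card_fin]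

lemma ncard_small_lev : {w : Vt p l q | lev w ≤ l}.ncard ≤ 2 * p + l := by
  have h : {w : Vt p l q | lev w ≤ l} ⊆
      (Sum.map id Sum.inl : (Fin p × Bool) ⊕ Fin l → Vt p l q) '' Set.univ := by
    intro w hw
    rcases w with w | w | w
    · exact ⟨Sum.inl w, Set.mem_univ _, rfl⟩
    · exact ⟨Sum.inr w, Set.mem_univ _, rfl⟩
    · exact absurd hw (by simp [lev])
  refine (Set.ncard_le_ncard h (Set.toFinite _)).trans ((Set.ncard_image_le (Set.toFinite _)).trans ?_)
  rw [Set.ncard_univ, Nat.card_eq_fintype_card, Fintype.card_sum, Fintype.card_prod,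
    Fintype.card_fin, Fintype.card_fin, Fintype.card_bool]
  omega

lemma closer_le_right (hl1 : 1 ≤ l) {x y : Vt p l q} (h : lev y + 1 = lev x) :
    closer (Gr p l q) x y ≤ l + q + 1 := by
  have : Nonempty (Vt p l q) := ⟨y⟩
  have hins : (insert (Classical.epsilon (fun w => anti y w))
      {w : Vt p l q | 1 ≤ lev w}).ncard ≤ l + q + 1 :=
    (Set.ncard_insert_le _ _).trans (Nat.add_le_add_right ncard_pos_lev 1)
  apply closer_le_of_subset hl1 _ hins
  intro w hw
  by_cases hw0 : 1 ≤ lev w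
  · exact Or.inr hw0
  · left
    have hdx : D w x = lev x := by rw [D_diff (by omega)]; omega
    by_cases ha : anti w y
    · have h1 : anti y (Classical.epsilon (fun w => anti y w)) :=
        Classical.epsilon_spec (p := fun w => anti y w) ⟨w, anti_symm ha⟩
      exact anti_unique (anti_symm ha) h1
    · exfalso
      by_cases hwy : w = y
      · subst hwy; rw [D_self] at hw; omega
      by_cases hl0 : lev w = lev y
      · rw [D_lev hwy ha hl0] at hw; omega
      · rw [D_diff hl0] at hw; omega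

lemma closer_le_right' (hl1 : 1 ≤ l) {x y : Vt p l q} (h : lev y + 1 = lev x)
    (hy : 1 ≤ lev y) : closer (Gr p l q) x y ≤ l + q := by
  apply closer_le_of_subset hl1 _ ncard_pos_lev
  intro w hw
  show 1 ≤ lev w
  by_contra hw0
  rw [D_diff (y := x) (by omega), D_diff (y := y) (by omega)] at hw
  omega

lemma closer_le_left (hl1 : 1 ≤ l) {x y : Vt p l q} (h : lev x + 1 = lev y) :
    closer (Gr p l q) x y ≤ 2 * p + l := by
  apply closer_le_of_subset hl1 _ ncard_small_lev
  intro w hw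
  show lev w ≤ l
  by_contra hw0
  have := lev_le w
  have := lev_le y
  by_cases hwy : lev w = lev y
  · rw [D_diff (y := x) (by omega)] at hw
    have h2 : D w y ≤ 1 := by
      by_cases hwy2 : w = y
      · rw [hwy2, D_self]; omega
      · rw [D_lev hwy2 (not_anti_of_lev (by omega)) hwy]
    omega
  · rw [D_diff (y := x) (by omega), D_diff (y := y) (by omega)] at hw
    omega

lemma closer_pos (hl1 : 1 ≤ l) {x y : Vt p l q} (h : x ≠ y) : 1 ≤ closer (Gr p l q) x y := by
  rw [closer_eq hl1, Nat.one_le_iff_ne_zero]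
  intro h0
  rw [Set.ncard_eq_zero (Set.toFinite _)] at h0
  have : x ∈ {w : Vt p l q | D w x < D w y} := by
    show D x x < D x y
    rw [D_self]
    exact Nat.pos_of_ne_zero fun h' => h (D_eq_zero h')
  rw [h0] at this
  exact this

/-- Both ends of an edge of the cocktail party graph have exactly two closer vertices. -/
lemma closer_cp (hl1 : 1 ≤ l) {x y : Fin p × Bool} (h : x.1 ≠ y.1) :
    closer (Gr p l q) (Sum.inl x) (Sum.inl y) = 2 := by
  rw [closer_eq hl1]
  have hset : {w : Vt p l q | D w (Sum.inl x) < D w (Sum.inl y)} =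
      {Sum.inl x, Sum.inl (y.1, !y.2)} := by
    ext w
    rw [Set.mem_ofPred_eq, Set.mem_insert_iff, Set.mem_singleton_iff]
    constructor
    · intro hw
      by_contra hcon
      push Not at hcon
      obtain ⟨h1, h2⟩ := hcon
      have hwx : D w (Sum.inl x) ≠ 0 := fun h => h1 (D_eq_zero h)
      by_cases h0 : lev w = 0
      · have ha : ¬ anti w (Sum.inl y) := by
          intro ha
          apply h2
          refine anti_unique (anti_symm ha) ?_
          exact ⟨rfl, by simp⟩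
        by_cases hwy : w = Sum.inl y
        · rw [hwy, D_self] at hw; omega
        · rw [D_lev hwy ha (by rw [h0]; rfl)] at hw
          omega
      · rw [D_diff (y := Sum.inl x) (by simpa [lev] using h0),
          D_diff (y := Sum.inl y) (by simpa [lev] using h0)] at hw
        simp only [lev] at hw
        omega
    · rintro (rfl | rfl)
      · rw [D_self]
        refine Nat.pos_of_ne_zero fun h' => h ?_
        have := D_eq_zero h'
        rw [Sum.inl.inj this]
      · have ha : anti (Sum.inl (y.1, !y.2) : Vt p l q) (Sum.inl y) := ⟨rfl, by simp⟩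
        rw [D_anti ha, D_lev (y := Sum.inl x)]
        · omega
        · intro h'
          exact h (by rw [← Sum.inl.inj h'])
        · intro h'
          exact h h'.1.symm
        · rfl
  rw [hset, Set.ncard_pair]
  intro h'
  exact h (by rw [Sum.inl.inj h'])

open Classical in
/-- The contribution of an ordered pair. -/
noncomputable def T (α : ℝ) (x y : Vt p l q) : ℝ :=
  (if (Gr p l q).Adj x y then
    ((closer (Gr p l q) x y : ℝ) * closer (Gr p l q) y x) ^ α else 0) -
  (if x = y then 0 else (D x y : ℝ) ^ α)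

lemma szeged_sub_wiener (hl1 : 1 ≤ l) (α : ℝ) :
    szeged (Gr p l q) α - wiener (Gr p l q) α = (1 / 2) * ∑ x, ∑ y, T α (x : Vt p l q) y := by
  unfold szeged wiener T
  simp only [Finset.sum_sub_distrib, dist_eq hl1]
  ring

lemma T_self (α : ℝ) (x : Vt p l q) : T α x x = 0 := by
  rw [T, if_neg (fun h => h.1 rfl), if_pos rfl, sub_zero]

lemma T_adj (α : ℝ) {x y : Vt p l q} (h : (Gr p l q).Adj x y) : T α x y =
    ((closer (Gr p l q) x y : ℝ) * closer (Gr p l q) y x) ^ α - 1 := by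
  rw [T, if_pos h, if_neg h.1, D_adj h, Nat.cast_one, Real.one_rpow]

lemma T_not_adj (α : ℝ) {x y : Vt p l q} (h : ¬ (Gr p l q).Adj x y) (hne : x ≠ y) :
    T α x y = - (D x y : ℝ) ^ α := by
  rw [T, if_neg h, if_neg hne, zero_sub]

lemma D_le (hl1 : 1 ≤ l) (x y : Vt p l q) : D x y ≤ l + 1 := by
  have := lev_le x
  have := lev_le y
  by_cases hxy : x = y
  · rw [hxy, D_self]; omega
  by_cases ha : anti x y
  · rw [D_anti ha]; omega
  by_cases hl : lev x = lev y
  · rw [D_lev hxy ha hl]; omega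
  · rw [D_diff hl]; omega

lemma T_symm (α : ℝ) (x y : Vt p l q) : T α x y = T α y x := by
  by_cases hxy : x = y
  · rw [hxy]
  by_cases h : (Gr p l q).Adj x y
  · rw [T_adj α h, T_adj α h.symm, mul_comm]
  · rw [T_not_adj α h hxy, T_not_adj α (fun h' => h h'.symm) (Ne.symm hxy)]
    congr 2
    by_cases ha : anti x y
    · rw [D_anti ha, D_anti (anti_symm ha)]
    by_cases hl : lev x = lev y
    · rw [D_lev hxy ha hl, D_lev (Ne.symm hxy) (fun h' => ha (anti_symm h')) hl.symm]
    · rw [D_diff hl, D_diff (Ne.symm hl), add_comm]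

end graph

section numerics

variable {p q : ℕ}

lemma adj_cp {l : ℕ} {x y : Fin p × Bool} (h : x.1 ≠ y.1) :
    (Gr p l q).Adj (Sum.inl x) (Sum.inl y) := by
  refine ⟨fun h' => h (by rw [Sum.inl.inj h']), Nat.zero_le _, Nat.zero_le _, fun h' => h h'.1⟩

lemma adj_q {l : ℕ} {x y : Fin q} (h : x ≠ y) :
    (Gr p l q).Adj (Sum.inr (Sum.inr x)) (Sum.inr (Sum.inr y)) := by
  refine ⟨fun h' => h (Sum.inr.inj (Sum.inr.inj h')), ?_, ?_, fun h' => h'⟩ <;>
    simp only [lev] <;> omega

/-- Lower bound at exponent one half. -/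
noncomputable def t1 : Vt p 80 q → Vt p 80 q → ℝ
  | Sum.inl x, Sum.inl y => 1 - if x.1 = y.1 then 3 else 0
  | Sum.inr (Sum.inr _), Sum.inr (Sum.inr _) => 0
  | _, _ => -9

lemma rpow_half_81 : (81 : ℝ) ^ (1 / 2 : ℝ) = 9 := by
  rw [show (81 : ℝ) = 9 ^ (2 : ℕ) by norm_num, ← Real.rpow_natCast, ← Real.rpow_mul (by norm_num)]
  norm_num

lemma T_ge (x y : Vt p 80 q) : -9 ≤ T (1 / 2) x y := by
  by_cases hxy : x = y
  · rw [hxy, T_self]; norm_num
  by_cases h : (Gr p 80 q).Adj x y
  · rw [T_adj _ h]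
    have : (0 : ℝ) ≤ ((closer (Gr p 80 q) x y : ℝ) * closer (Gr p 80 q) y x) ^ (1 / 2 : ℝ) := by
      positivity
    linarith
  · rw [T_not_adj _ h hxy, neg_le_neg_iff, ← rpow_half_81]
    apply Real.rpow_le_rpow (by positivity) _ (by norm_num)
    exact_mod_cast D_le (by norm_num) x y

lemma t1_le (x y : Vt p 80 q) : t1 x y ≤ T (1 / 2) x y := by
  rcases x with x | x | x <;> rcases y with y | y | y
  · show 1 - (if x.1 = y.1 then (3 : ℝ) else 0) ≤ _
    by_cases h : x.1 = y.1
    · rw [if_pos h]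
      by_cases hxy : x = y
      · rw [hxy, T_self]; norm_num
      · have hx2 : x.2 ≠ y.2 := fun h2 => hxy (Prod.ext h h2)
        have ha : anti (Sum.inl x : Vt p 80 q) (Sum.inl y) := ⟨h, hx2⟩
        rw [T_not_adj _ (fun h' => h'.2.2.2 ha) (anti_ne ha), D_anti ha]
        have h2 : ((2 : ℕ) : ℝ) ^ (1 / 2 : ℝ) ≤ ((2 : ℕ) : ℝ) ^ (1 : ℝ) :=
          Real.rpow_le_rpow_of_exponent_le (by norm_num) (by norm_num)
        rw [Real.rpow_one] at h2
        push_cast at h2 ⊢
        linarith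
    · rw [if_neg h, T_adj _ (adj_cp h), closer_cp (by norm_num) h,
        closer_cp (by norm_num) (Ne.symm h)]
      have h4 : ((2 : ℕ) : ℝ) * ((2 : ℕ) : ℝ) = 2 ^ (2 : ℕ) := by norm_num
      rw [h4, ← Real.rpow_natCast, ← Real.rpow_mul (by norm_num)]
      norm_num
  · exact T_ge _ _
  · exact T_ge _ _
  · exact T_ge _ _
  · exact T_ge _ _
  · exact T_ge _ _
  · exact T_ge _ _
  · exact T_ge _ _
  · show (0 : ℝ) ≤ _
    by_cases hxy : x = y
    · rw [hxy, T_self]
    · have hadj := adj_q (p := p) (l := 80) hxy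
      rw [T_adj _ hadj]
      have h1 : (1 : ℝ) ≤ (closer (Gr p 80 q) (Sum.inr (Sum.inr x)) (Sum.inr (Sum.inr y)) : ℝ) := by
        exact_mod_cast closer_pos (by norm_num) hadj.1
      have h2 : (1 : ℝ) ≤ (closer (Gr p 80 q) (Sum.inr (Sum.inr y)) (Sum.inr (Sum.inr x)) : ℝ) := by
        exact_mod_cast closer_pos (by norm_num) hadj.1.symm
      have h3 := Real.one_le_rpow (x := (closer (Gr p 80 q) (Sum.inr (Sum.inr x))
        (Sum.inr (Sum.inr y)) : ℝ) * closer (Gr p 80 q) (Sum.inr (Sum.inr y))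
          (Sum.inr (Sum.inr x))) (z := 1 / 2) (by nlinarith) (by norm_num)
      linarith

lemma sum_ite : ∑ x : Fin p × Bool, ∑ y : Fin p × Bool, (if x.1 = y.1 then (3 : ℝ) else 0) =
    12 * p := by
  simp [Fintype.sum_prod_type, Finset.sum_add_distrib]
  ring

lemma sum_t1 : ∑ x, ∑ y, t1 (x : Vt p 80 q) y =
    2 * p * (2 * p - 6) - 9 * (2 * (2 * p * (80 + q)) + 6400 + 2 * (80 * q)) := by
  simp only [Fintype.sum_sum_type, t1, Finset.sum_add_distrib]
  simp only [Finset.sum_sub_distrib, sum_ite]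
  simp only [Finset.sum_const, Finset.card_univ, Fintype.card_fin, Fintype.card_bool,
    nsmul_eq_mul, Fintype.card_prod]
  push_cast
  ring

/-- Upper bound at exponent three quarters. -/
noncomputable def t2 : Vt p 80 q → Vt p 80 q → ℝ
  | Sum.inl _, Sum.inl _ => 2
  | Sum.inl _, Sum.inr (Sum.inl _) => 110592
  | Sum.inl _, Sum.inr (Sum.inr _) => -27
  | Sum.inr (Sum.inl _), Sum.inl _ => 110592
  | Sum.inr (Sum.inl _), Sum.inr (Sum.inl _) => 110592000000
  | Sum.inr (Sum.inl _), Sum.inr (Sum.inr _) => 1000000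
  | Sum.inr (Sum.inr _), Sum.inl _ => -27
  | Sum.inr (Sum.inr _), Sum.inr (Sum.inl _) => 1000000
  | Sum.inr (Sum.inr _), Sum.inr (Sum.inr _) => 0

lemma rpow_tq (a : ℕ) : ((a : ℝ) ^ (4 : ℕ)) ^ (3 / 4 : ℝ) = (a : ℝ) ^ (3 : ℕ) := by
  rw [← Real.rpow_natCast, ← Real.rpow_mul (by positivity), ← Real.rpow_natCast]
  norm_num

/-- If the product of the closer counts is at most `a ^ 4`, the contribution is at most `a ^ 3`. -/
lemma T_le_of_prod (a : ℕ) {x y : Vt p 80 q} (h : (Gr p 80 q).Adj x y →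
    closer (Gr p 80 q) x y * closer (Gr p 80 q) y x ≤ a ^ 4) :
    T (3 / 4) x y ≤ (a : ℝ) ^ 3 := by
  have ha : (0 : ℝ) ≤ (a : ℝ) ^ 3 := by positivity
  by_cases hxy : x = y
  · rw [hxy, T_self]; exact ha
  by_cases hadj : (Gr p 80 q).Adj x y
  · rw [T_adj _ hadj, ← rpow_tq]
    have h1 : ((closer (Gr p 80 q) x y : ℝ) * closer (Gr p 80 q) y x) ^ (3 / 4 : ℝ) ≤
        ((a : ℝ) ^ (4 : ℕ)) ^ (3 / 4 : ℝ) := by
      apply Real.rpow_le_rpow (by positivity) _ (by norm_num)
      exact_mod_cast h hadj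
    linarith
  · rw [T_not_adj _ hadj hxy]
    have : (0 : ℝ) ≤ (D x y : ℝ) ^ (3 / 4 : ℝ) := by positivity
    linarith

lemma T_cp_path (hq : q + 81 ≤ 48 ^ 4) (x : Fin p × Bool) (i : Fin 80) :
    T (3 / 4) (Sum.inl x : Vt p 80 q) (Sum.inr (Sum.inl i)) ≤ 110592 := by
  have h := T_le_of_prod 48 (x := (Sum.inl x : Vt p 80 q)) (y := Sum.inr (Sum.inl i)) (by
    intro hadj
    have hl : lev (Sum.inr (Sum.inl i) : Vt p 80 q) = 1 := by
      have h2 := hadj.2.2.1
      simp only [lev] at h2 ⊢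
      omega
    have h1 := closer_le_one (l := 80) (by norm_num) hadj.1 (Or.inl ⟨rfl, hl⟩)
    have h2 := closer_le_right (l := 80) (by norm_num)
      (x := (Sum.inr (Sum.inl i) : Vt p 80 q)) (y := Sum.inl x) (by rw [hl]; rfl)
    calc _ ≤ 1 * (80 + q + 1) := Nat.mul_le_mul h1 h2
      _ ≤ _ := by omega)
  norm_num at h
  exact h

lemma T_path_q (hp : 2 * p + 80 ≤ 100 ^ 4) (x : Fin q) (i : Fin 80) :
    T (3 / 4) (Sum.inr (Sum.inr x) : Vt p 80 q) (Sum.inr (Sum.inl i)) ≤ 1000000 := by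
  have h := T_le_of_prod 100 (x := (Sum.inr (Sum.inr x) : Vt p 80 q)) (y := Sum.inr (Sum.inl i)) (by
    intro hadj
    have hl : lev (Sum.inr (Sum.inl i) : Vt p 80 q) = 80 := by
      have h2 := hadj.2.1
      simp only [lev] at h2 ⊢
      omega
    have h1 := closer_le_one (l := 80) (by norm_num) hadj.1 (Or.inr (Or.inl ⟨rfl, hl⟩))
    have h2 := closer_le_left (l := 80) (by norm_num)
      (x := (Sum.inr (Sum.inl i) : Vt p 80 q)) (y := Sum.inr (Sum.inr x)) (by rw [hl]; rfl)
    calc _ ≤ 1 * (2 * p + 80) := Nat.mul_le_mul h1 h2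
      _ ≤ _ := by omega)
  norm_num at h
  exact h

lemma T_path_path (hp : 2 * p + 80 ≤ 100 ^ 4) (hq : q + 81 ≤ 48 ^ 4) (i j : Fin 80) :
    T (3 / 4) (Sum.inr (Sum.inl i) : Vt p 80 q) (Sum.inr (Sum.inl j)) ≤ 110592000000 := by
  have h := T_le_of_prod 4800 (x := (Sum.inr (Sum.inl i) : Vt p 80 q))
    (y := Sum.inr (Sum.inl j)) (by
    intro hadj
    have hne : lev (Sum.inr (Sum.inl i) : Vt p 80 q) ≠ lev (Sum.inr (Sum.inl j) : Vt p 80 q) := by
      intro h'
      exact hadj.1 (path_unique h' (by simp only [lev]; omega) (by simp only [lev]; omega))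
    have ha := hadj.2.1
    have hb := hadj.2.2.1
    have hi : 1 ≤ lev (Sum.inr (Sum.inl i) : Vt p 80 q) := by simp only [lev]; omega
    have hj : 1 ≤ lev (Sum.inr (Sum.inl j) : Vt p 80 q) := by simp only [lev]; omega
    rcases lt_or_gt_of_ne hne with hlt | hlt
    · have h1 := closer_le_left (l := 80) (by norm_num)
        (x := (Sum.inr (Sum.inl i) : Vt p 80 q)) (y := Sum.inr (Sum.inl j)) (by omega)
      have h2 := closer_le_right' (l := 80) (by norm_num)
        (x := (Sum.inr (Sum.inl j) : Vt p 80 q)) (y := Sum.inr (Sum.inl i)) (by omega) hi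
      calc _ ≤ (2 * p + 80) * (80 + q) := Nat.mul_le_mul h1 h2
        _ ≤ 100 ^ 4 * 48 ^ 4 := Nat.mul_le_mul hp (by omega)
        _ = _ := by norm_num
    · have h1 := closer_le_left (l := 80) (by norm_num)
        (x := (Sum.inr (Sum.inl j) : Vt p 80 q)) (y := Sum.inr (Sum.inl i)) (by omega)
      have h2 := closer_le_right' (l := 80) (by norm_num)
        (x := (Sum.inr (Sum.inl i) : Vt p 80 q)) (y := Sum.inr (Sum.inl j)) (by omega) hj
      calc _ ≤ (80 + q) * (2 * p + 80) := Nat.mul_le_mul h2 h1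
        _ ≤ 48 ^ 4 * 100 ^ 4 := Nat.mul_le_mul (by omega) hp
        _ = _ := by norm_num)
  norm_num at h
  exact h

lemma T_cp_q (x : Fin p × Bool) (y : Fin q) :
    T (3 / 4) (Sum.inl x : Vt p 80 q) (Sum.inr (Sum.inr y)) = -27 := by
  have hD : D (Sum.inl x : Vt p 80 q) (Sum.inr (Sum.inr y)) = 81 := by
    rw [D_diff (by simp [lev])]
    simp [lev]
  rw [T_not_adj _ (fun h => by have := h.2.2.1; simp only [lev] at this; omega)
    (by simp), hD]
  have : (((81 : ℕ) : ℝ)) = ((3 : ℕ) : ℝ) ^ (4 : ℕ) := by norm_num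
  rw [this, rpow_tq]
  norm_num

lemma T_cp_cp (x y : Fin p × Bool) :
    T (3 / 4) (Sum.inl x : Vt p 80 q) (Sum.inl y) ≤ 2 := by
  by_cases hxy : x = y
  · rw [hxy, T_self]; norm_num
  by_cases h : x.1 = y.1
  · have ha : anti (Sum.inl x : Vt p 80 q) (Sum.inl y) := ⟨h, fun h2 => hxy (Prod.ext h h2)⟩
    rw [T_not_adj _ (fun h' => h'.2.2.2 ha) (anti_ne ha)]
    have : (0 : ℝ) ≤ (D (Sum.inl x : Vt p 80 q) (Sum.inl y) : ℝ) ^ (3 / 4 : ℝ) := by positivity
    linarith
  · rw [T_adj _ (adj_cp h), closer_cp (by norm_num) h, closer_cp (by norm_num) (Ne.symm h)]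
    have h1 : ((2 : ℕ) : ℝ) * ((2 : ℕ) : ℝ) ≤ ((9 : ℝ) ^ (1 / 2 : ℝ)) ^ (4 / 3 : ℝ) := by
      rw [← Real.rpow_mul (by norm_num)]
      have h2 : (2 : ℝ) ^ (2 : ℕ) ≤ 9 ^ (1 / 2 * (4 / 3) : ℝ) := by
        have h3 : ((2 : ℝ) ^ (2 : ℕ)) = ((64 : ℝ)) ^ (1 / 3 : ℝ) := by
          rw [show (64 : ℝ) = 4 ^ (3 : ℕ) by norm_num, ← Real.rpow_natCast 4 3,
            ← Real.rpow_mul (by norm_num)]
          norm_num
        have h4 : (9 : ℝ) ^ (1 / 2 * (4 / 3) : ℝ) = (81 : ℝ) ^ (1 / 3 : ℝ) := by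
          rw [show (81 : ℝ) = 9 ^ (2 : ℕ) by norm_num, ← Real.rpow_natCast 9 2,
            ← Real.rpow_mul (by norm_num)]
          norm_num
        rw [h3, h4]
        exact Real.rpow_le_rpow (by norm_num) (by norm_num) (by norm_num)
      calc ((2 : ℕ) : ℝ) * ((2 : ℕ) : ℝ) = (2 : ℝ) ^ (2 : ℕ) := by norm_num
        _ ≤ _ := h2
    have h5 : (((2 : ℕ) : ℝ) * ((2 : ℕ) : ℝ)) ^ (3 / 4 : ℝ) ≤
        (((9 : ℝ) ^ (1 / 2 : ℝ)) ^ (4 / 3 : ℝ)) ^ (3 / 4 : ℝ) :=
      Real.rpow_le_rpow (by norm_num) h1 (by norm_num)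
    have h6 : (((9 : ℝ) ^ (1 / 2 : ℝ)) ^ (4 / 3 : ℝ)) ^ (3 / 4 : ℝ) = 3 := by
      rw [← Real.rpow_mul (by norm_num), ← Real.rpow_mul (by norm_num),
        show (9 : ℝ) = 3 ^ (2 : ℕ) by norm_num, ← Real.rpow_natCast 3 2,
        ← Real.rpow_mul (by norm_num)]
      norm_num
    rw [h6] at h5
    linarith

lemma T_q_q (x y : Fin q) :
    T (3 / 4) (Sum.inr (Sum.inr x) : Vt p 80 q) (Sum.inr (Sum.inr y)) ≤ 0 := by
  by_cases hxy : x = y
  · rw [hxy, T_self]
  · have hadj := adj_q (p := p) (l := 80) hxy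
    rw [T_adj _ hadj]
    have h1 := closer_le_one (l := 80) (by norm_num) hadj.1 (Or.inr (Or.inr ⟨rfl, rfl⟩))
    have h2 := closer_le_one (l := 80) (by norm_num) hadj.1.symm (Or.inr (Or.inr ⟨rfl, rfl⟩))
    have h3 : (closer (Gr p 80 q) (Sum.inr (Sum.inr x)) (Sum.inr (Sum.inr y)) : ℝ) *
        closer (Gr p 80 q) (Sum.inr (Sum.inr y)) (Sum.inr (Sum.inr x)) ≤ 1 := by
      have := Nat.mul_le_mul h1 h2
      exact_mod_cast this
    have h4 := Real.rpow_le_one (z := 3 / 4) (by positivity) h3 (by norm_num)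
    linarith

lemma le_t2 (hp : 2 * p + 80 ≤ 100 ^ 4) (hq : q + 81 ≤ 48 ^ 4) (x y : Vt p 80 q) :
    T (3 / 4) x y ≤ t2 x y := by
  rcases x with x | x | x <;> rcases y with y | y | y
  · exact T_cp_cp x y
  · exact T_cp_path hq x y
  · exact (T_cp_q x y).le
  · rw [T_symm]; exact T_cp_path hq y x
  · exact T_path_path hp hq x y
  · rw [T_symm]; exact T_path_q hp y x
  · rw [T_symm]; exact (T_cp_q y x).le
  · exact T_path_q hp x y
  · exact T_q_q x y

lemma sum_t2 : ∑ x, ∑ y, t2 (x : Vt p 80 q) y =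
    8 * (p : ℝ) ^ 2 + 320 * p * 110592 - 108 * p * q + 6400 * 110592000000
      + 160 * q * 1000000 := by
  simp only [Fintype.sum_sum_type, t2, Finset.sum_add_distrib]
  simp only [Finset.sum_const, Finset.card_univ, Fintype.card_fin, Fintype.card_bool,
    nsmul_eq_mul, Fintype.card_prod]
  push_cast
  ring

end numerics

/-- The difference of the two indices depends continuously on the exponent. -/
lemma continuous_diff (p q : ℕ) : Continuous
    (fun α : ℝ => szeged (Gr p 80 q) α - wiener (Gr p 80 q) α) := by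
  have h : (fun α : ℝ => szeged (Gr p 80 q) α - wiener (Gr p 80 q) α) =
      fun α => (1 / 2) * ∑ x, ∑ y, T α (x : Vt p 80 q) y := by
    funext α
    exact szeged_sub_wiener (by norm_num) α
  rw [h]
  refine continuous_const.mul (continuous_finsetSum _ fun x _ => continuous_finsetSum _
    fun y _ => ?_)
  by_cases hxy : x = y
  · subst hxy
    simp only [T_self]
    exact continuous_const
  by_cases hadj : (Gr p 80 q).Adj x y
  · simp only [fun α => T_adj α hadj]
    refine (Real.continuous_const_rpow ?_).sub continuous_const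
    have h1 := closer_pos (l := 80) (by norm_num) hxy
    have h2 := closer_pos (l := 80) (by norm_num) (Ne.symm hxy)
    positivity
  · simp only [fun α => T_not_adj α hadj hxy]
    refine (Real.continuous_const_rpow ?_).neg
    have h1 : D x y ≠ 0 := fun h0 => hxy (D_eq_zero h0)
    exact_mod_cast h1

lemma zero_neg (p q : ℕ) (hp : 1 ≤ p) : szeged (Gr p 80 q) 0 - wiener (Gr p 80 q) 0 < 0 := by
  rw [szeged_sub_wiener (by norm_num)]
  have hle : ∀ x y : Vt p 80 q, T 0 x y ≤ 0 := by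
    intro x y
    by_cases hxy : x = y
    · rw [hxy, T_self]
    by_cases hadj : (Gr p 80 q).Adj x y
    · rw [T_adj _ hadj, Real.rpow_zero]; norm_num
    · rw [T_not_adj _ hadj hxy, Real.rpow_zero]; norm_num
  have hlt : T 0 (Sum.inl (⟨0, hp⟩, false) : Vt p 80 q) (Sum.inl (⟨0, hp⟩, true)) < 0 := by
    have ha : anti (Sum.inl (⟨0, hp⟩, false) : Vt p 80 q) (Sum.inl (⟨0, hp⟩, true)) :=
      ⟨rfl, by simp⟩
    rw [T_not_adj _ (fun h' => h'.2.2.2 ha) (anti_ne ha), Real.rpow_zero]
    norm_num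
  have h1 : ∑ x, ∑ y, T 0 (x : Vt p 80 q) y < ∑ x : Vt p 80 q, ∑ y : Vt p 80 q, (0 : ℝ) := by
    refine Finset.sum_lt_sum (fun x _ => Finset.sum_le_sum fun y _ => hle x y)
      ⟨Sum.inl (⟨0, hp⟩, false), Finset.mem_univ _, ?_⟩
    exact Finset.sum_lt_sum (fun y _ => hle _ y) ⟨Sum.inl (⟨0, hp⟩, true), Finset.mem_univ _, hlt⟩
  simp only [Finset.sum_const_zero] at h1
  linarith

/-- There is a connected non-complete graph whose variable Szeged and variable Wiener indices
agree for two different exponents. -/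
theorem result : ∃ (V : Type) (_ : Fintype V) (G : SimpleGraph V), G.Connected ∧ G ≠ ⊤ ∧
    ∃ α β : ℝ, α ≠ β ∧ szeged G α = wiener G α ∧ szeged G β = wiener G β := by
  obtain ⟨p, q, hpq, hq⟩ : ∃ p q : ℕ, p = 10 * q ∧ q = 4900000 := ⟨_, _, rfl, rfl⟩
  have hqr : (q : ℝ) = 4900000 := by rw [hq]; norm_num
  have hpr : (p : ℝ) = 49000000 := by rw [hpq]; push_cast; rw [hqr]; norm_num
  have hp1 : 1 ≤ p := by omega
  set f : ℝ → ℝ := fun α => szeged (Gr p 80 q) α - wiener (Gr p 80 q) α with hf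
  have hc : Continuous f := continuous_diff p q
  have h0 : f 0 < 0 := zero_neg p q hp1
  have h1 : 0 < f (1 / 2) := by
    simp only [hf]
    rw [szeged_sub_wiener (by norm_num)]
    have h2 : ∑ x, ∑ y, t1 (x : Vt p 80 q) y ≤ ∑ x, ∑ y, T (1 / 2) (x : Vt p 80 q) y :=
      Finset.sum_le_sum fun x _ => Finset.sum_le_sum fun y _ => t1_le x y
    rw [sum_t1, hpr, hqr] at h2
    norm_num at h2 ⊢
    linarith
  have h3 : f (3 / 4) < 0 := by
    simp only [hf]
    rw [szeged_sub_wiener (by norm_num)]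
    have h2 : ∑ x, ∑ y, T (3 / 4) (x : Vt p 80 q) y ≤ ∑ x, ∑ y, t2 (x : Vt p 80 q) y :=
      Finset.sum_le_sum fun x _ => Finset.sum_le_sum fun y _ =>
        le_t2 (by omega) (by omega) x y
    rw [sum_t2, hpr, hqr] at h2
    norm_num at h2 ⊢
    linarith
  obtain ⟨a, ha, ha0⟩ := intermediate_value_Icc (show (0 : ℝ) ≤ 1 / 2 by norm_num)
    hc.continuousOn (show (0 : ℝ) ∈ Set.Icc (f 0) (f (1 / 2)) from ⟨h0.le, h1.le⟩)
  obtain ⟨b, hb, hb0⟩ := intermediate_value_Icc' (show (1 / 2 : ℝ) ≤ 3 / 4 by norm_num)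
    hc.continuousOn (show (0 : ℝ) ∈ Set.Icc (f (3 / 4)) (f (1 / 2)) from ⟨h3.le, h1.le⟩)
  have hab : a ≠ b := by
    rintro rfl
    have : a = 1 / 2 := le_antisymm ha.2 hb.1
    rw [this] at ha0
    linarith
  refine ⟨Vt p 80 q, inferInstance, Gr p 80 q, Gr_connected (by norm_num), ?_, a, b, hab,
    sub_eq_zero.1 ha0, sub_eq_zero.1 hb0⟩
  intro htop
  have ha : anti (Sum.inl (⟨0, hp1⟩, false) : Vt p 80 q) (Sum.inl (⟨0, hp1⟩, true)) :=
    ⟨rfl, by simp⟩
  have : (Gr p 80 q).Adj (Sum.inl (⟨0, hp1⟩, false)) (Sum.inl (⟨0, hp1⟩, true)) := by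
    rw [htop]
    exact anti_ne ha
  exact this.2.2.2 ha

end Pool.Agent.Results.MP_dd6dde_co.TwoZeros
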